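import Pool.Agent.RCD.Final

/-!
A rationally connected variety over an infinite field whose set of rational points is nonempty and
finite, hence not Zariski dense, in every positive characteristic.

Let `q = p ^ 2`, and let a bar denote the conjugation of `F_{p^2}(t)` over `k = F_p(t)`.  The
variety is the `k`-form of the surface
`{(w, l) in P^2 x P^2 : sum l_i w_i^q = 0 = sum w_i l_i^q}`
whose `k`-points are the points `w` of `P^2` over `F_{p^2}(t)` with `sum (bar w_i) w_i^q = 0`.
It is embedded in the `P^8` of hermitian 3 x 3 matrices over `F_{p^2}(t)` by `w -> w (bar w)^T`.
It is smooth, and over the algebraic closure it is the image of `P^2` under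
`u -> (u^(q), u x u^(q^2))` (vector product), so it is unirational and rationally connected.
If `w` is a primitive vector of polynomials in `t`, write `bar w = sum_{j < q} t^j v_j(t^q)`; then
`sum (bar w_i) w_i^q = 0` says that `v_j . w = 0` for every `j`.  If two of the `v_j` are linearly
independent then `w` is proportional to their vector product, which is impossible for reasons of
degree unless `w` is constant; otherwise `bar w` is proportional to `u(t^q)` for a vector `u` whose
conjugate is a solution of smaller degree.  So all `k`-points are constant.
-/

namespace Pool.Agent.Results.MP_02e6ff_ag.FinitelyManyPoints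

open Pool.Agent.RCD

/-- For every prime `p` there is a closed subscheme `X` of `P^8` over the infinite field
`k = F_p(t)`, which is smooth of dimension two, geometrically irreducible (hence geometrically
integral), geometrically unirational and rationally connected, and whose set of `k`-rational
points is nonempty and finite; in particular it is not Zariski dense in `X`. -/
theorem result (p : ℕ) [Fact p.Prime] :
    Infinite (RatFunc (ZMod p)) ∧
    ∃ X : ProjScheme (RatFunc (ZMod p)) (Fin 3 × Fin 3),
      X.SmoothOfDim 2 ∧ X.GeomIrreducible ∧ X.GeomUnirational ∧ X.RationallyConnected ∧
      X.rationalPoints.Nonempty ∧ X.rationalPoints.Finite ∧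
      ¬ X.ZariskiDense X.rationalPoints :=
  Pool.Agent.RCD.main p

end Pool.Agent.Results.MP_02e6ff_ag.FinitelyManyPoints
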